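import Pool.Agent.Lib_helper79.StdId.Core

set_option autoImplicit false

/-!
# Standard identities of graded algebras with commutative neutral component

The field `P` has characteristic `p > 0`, `G` is a finite group (written additively; the
commutative case is the one of the question, but commutativity is not used), `A` is an associative
`P`-algebra, with or without unit, graded by `G`, and its zero component is commutative.  Then `A`
satisfies the standard identity of degree `|G| p`.
-/

namespace Pool.Agent.Results.MP_aaf344_al.StandardIdentity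

universe u v w

/-- The product `a_1 (a_2 (⋯ a_n))` of a nonempty list of elements of an associative algebra which
need not have a unit.  (The value `0` at the empty list is never used below: `|G| p ≥ 1`.) -/
def wordProd {A : Type w} [NonUnitalRing A] : List A → A
  | [] => 0
  | [a] => a
  | a :: b :: l => a * wordProd (b :: l)

/-- The value `s_n(a_1, …, a_n) = ∑_σ sgn(σ) a_{σ(1)} a_{σ(2)} ⋯ a_{σ(n)}` of the standard
polynomial of degree `n`. -/
def standardPoly {A : Type w} [NonUnitalRing A] (n : ℕ) (a : Fin n → A) : A :=
  ∑ σ : Equiv.Perm (Fin n),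
    ((Equiv.Perm.sign σ : ℤˣ) : ℤ) • wordProd (List.ofFn fun i => a (σ i))

/-- `A` satisfies the standard identity of degree `n`. -/
def SatisfiesStandardIdentity (A : Type w) [NonUnitalRing A] (n : ℕ) : Prop :=
  ∀ a : Fin n → A, standardPoly n a = 0

/-- The subspaces `A_g`, `g ∈ G`, form a `G`-grading of the `P`-algebra `A`: `A` is their direct
sum and `A_g A_h ⊆ A_{g+h}`. -/
def IsGrading {P : Type u} {G : Type v} {A : Type w} [Field P] [AddGroup G] [DecidableEq G]
    [NonUnitalRing A] [Module P A] (𝒜 : G → Submodule P A) : Prop :=
  DirectSum.IsInternal 𝒜 ∧ ∀ g h : G, ∀ a ∈ 𝒜 g, ∀ b ∈ 𝒜 h, a * b ∈ 𝒜 (g + h)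

section Aux

variable {P : Type u} {G : Type v} {A : Type w} [Field P] [AddGroup G] [DecidableEq G]
  [NonUnitalRing A] [Module P A] [IsScalarTower P A A] [SMulCommClass P A A]
  (𝒜 : G → Submodule P A)

omit [IsScalarTower P A A] [SMulCommClass P A A] in
theorem exists_components [Fintype G] (h : IsGrading 𝒜) (a : A) :
    ∃ f : G → A, (∀ g, f g ∈ 𝒜 g) ∧ ∑ g, f g = a := by
  classical
  obtain ⟨v, hv⟩ := h.1.2 a
  refine ⟨fun g => ((v g : 𝒜 g) : A), fun g => (v g).2, ?_⟩
  rw [← hv]
  symm
  rw [DirectSum.coeAddMonoidHom_eq_dfinsuppSum, DFinsupp.sum_eq_sum_fintype]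
  · rfl
  · intro g
    rfl

omit [IsScalarTower P A A] [SMulCommClass P A A] in
theorem inr_wordProd : ∀ l : List A, l ≠ [] →
    (Unitization.inr (wordProd l) : Unitization P A) =
      (l.map (fun a => (Unitization.inr a : Unitization P A))).prod
  | [], h => absurd rfl h
  | [a], _ => by simp [wordProd]
  | a :: b :: l, _ => by
    rw [wordProd, Unitization.inr_mul, inr_wordProd (b :: l) (by simp)]
    simp

omit [IsScalarTower P A A] [SMulCommClass P A A] in
theorem wordProd_mem (h : IsGrading 𝒜) {ι : Type*} (d : ι → G) (x : ι → A)
    (hx : ∀ i, x i ∈ 𝒜 (d i)) : ∀ l : List ι, l ≠ [] →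
      wordProd (l.map x) ∈ 𝒜 ((l.map d).sum)
  | [], h => absurd rfl h
  | [a], _ => by simpa [wordProd] using hx a
  | a :: b :: l, _ => by
    have h1 := wordProd_mem h d x hx (b :: l) (by simp)
    have h2 := h.2 _ _ _ (hx a) _ h1
    simpa [wordProd] using h2

end Aux

/-- Every associative algebra (unital or not) over a field of characteristic `p > 0` which is
graded by a finite group of order `k` and has a commutative zero component satisfies the standard
identity of degree `k p`. -/
theorem result (P : Type u) [Field P] (p : ℕ) [CharP P p] (hp : 0 < p)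
    (G : Type v) [AddGroup G] [Fintype G] [DecidableEq G]
    (A : Type w) [NonUnitalRing A] [Module P A] [IsScalarTower P A A] [SMulCommClass P A A]
    (𝒜 : G → Submodule P A) (hgr : IsGrading 𝒜)
    (hcomm : ∀ a ∈ 𝒜 0, ∀ b ∈ 𝒜 0, a * b = b * a) :
    SatisfiesStandardIdentity A (Fintype.card G * p) := by
  classical
  have hprime : p.Prime := by
    rcases CharP.char_is_prime_or_zero P p with h | h
    · exact h
    · omega
  have : Fact p.Prime := ⟨hprime⟩
  have hn : Fintype.card G * p ≠ 0 := Nat.mul_ne_zero Fintype.card_ne_zero hp.ne'
  have hA : ∀ a : Unitization P A, p • a = 0 := by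
    intro a
    rw [← Nat.cast_smul_eq_nsmul P p a, CharP.cast_eq_zero, zero_smul]
  have key : ∀ y : Fin (Fintype.card G * p) → Unitization P A,
      MultilinearMap.alternatization
        (MultilinearMap.mkPiAlgebraFin P (Fintype.card G * p) (Unitization P A)) y =
      ∑ σ : Equiv.Perm (Fin (Fintype.card G * p)),
          ((Equiv.Perm.sign σ : ℤˣ) : ℤ) • (List.ofFn (fun i => y (σ i))).prod := by
    intro y
    rw [MultilinearMap.alternatization_apply]
    apply Finset.sum_congr rfl
    intro σ _
    rw [MultilinearMap.domDomCongr_apply, MultilinearMap.mkPiAlgebraFin_apply]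
    rfl
  intro x
  have hinr : (Unitization.inr (standardPoly (Fintype.card G * p) x) : Unitization P A) =
      ∑ σ : Equiv.Perm (Fin (Fintype.card G * p)),
          ((Equiv.Perm.sign σ : ℤˣ) : ℤ) •
            (List.ofFn (fun i => (Unitization.inr (x (σ i)) : Unitization P A))).prod := by
    unfold standardPoly
    have h1 : ∀ a : A, (Unitization.inr a : Unitization P A) =
        (Unitization.inrHom P P A : A →ₗ[P] Unitization P A) a := fun a => rfl
    rw [h1, map_sum]
    apply Finset.sum_congr rfl
    intro σ _
    rw [map_zsmul, ← h1, inr_wordProd (P := P) _ (by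
      intro h0
      apply hn
      have := congrArg List.length h0
      simpa using this), List.map_ofFn]
    rfl
  choose f hf1 hf2 using fun i => exists_components 𝒜 hgr (x i)
  have hx : (fun i => (Unitization.inr (x i) : Unitization P A)) =
      fun i => ∑ g : G, (Unitization.inr (f i g) : Unitization P A) := by
    funext i
    have h1 : ∀ a : A, (Unitization.inr a : Unitization P A) =
        (Unitization.inrHom P P A : A →ₗ[P] Unitization P A) a := fun a => rfl
    conv_lhs => rw [← hf2 i, h1, map_sum]
    rfl
  have hmain : (Unitization.inr (standardPoly (Fintype.card G * p) x) : Unitization P A) = 0 := by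
    rw [hinr, ← key (fun i => (Unitization.inr (x i) : Unitization P A)), hx]
    rw [← AlternatingMap.coe_multilinearMap]
    rw [MultilinearMap.map_sum]
    apply Finset.sum_eq_zero
    intro r _
    rw [AlternatingMap.coe_multilinearMap, key]
    have hform : ∀ B : List (Fin (Fintype.card G * p)), (B.map r).sum = 0 →
        (B.map (fun i => (Unitization.inr (f i (r i)) : Unitization P A))).prod = 1 ∨
        ∃ a ∈ 𝒜 0, (B.map (fun i => (Unitization.inr (f i (r i)) : Unitization P A))).prod =
          Unitization.inr a := by
      intro B hB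
      by_cases h0 : B = []
      · left
        rw [h0]
        simp
      · right
        refine ⟨wordProd (B.map (fun i => f i (r i))), ?_, ?_⟩
        · have := wordProd_mem 𝒜 hgr r (fun i => f i (r i)) (fun i => hf1 i (r i)) B h0
          rwa [hB] at this
        · rw [inr_wordProd _ (by simpa using h0), List.map_map]
          rfl
    refine StdId.homog p hA r (fun i => (Unitization.inr (f i (r i)) : Unitization P A)) ?_
    intro B hB C hC
    rcases hform B hB with h1 | ⟨a, ha, h1⟩
    · rw [h1, one_mul, mul_one]
    · rcases hform C hC with h2 | ⟨b, hb, h2⟩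
      · rw [h2, one_mul, mul_one]
      · rw [h1, h2, ← Unitization.inr_mul, ← Unitization.inr_mul, hcomm a ha b hb]
  exact Unitization.inr_injective (by rw [hmain]; rfl)

end Pool.Agent.Results.MP_aaf344_al.StandardIdentity
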